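import Pool.Agent.Run7.h630.QF.Iface
import Pool.Agent.Run7.h270.QC.Q5a

/-! Project QF (helper630), piece R2: the structure of the potentials of the modes. -/

set_option autoImplicit false

open MeasureTheory Matrix Filter Topology Finset
open scoped Matrix.Norms.Frobenius ComplexConjugate

namespace Run7.h377.QF

open Run7.h4.YM Run7.h630.WL Run7.h630.MQ Run7.h630.QC Run7.h630.ML Run7.h630.QF

noncomputable section

variable {N n L l : ℕ}

/-- the phase of the mode in the direction `j` -/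
def ee (N k l : ℕ) (ι : Ix N) (j : Fin 4) : ℂ :=
  Complex.exp (Complex.I * ((mom N k ι j / l : ℝ) : ℂ))

lemma ee_conj (k : ℕ) (ι : Ix N) (j : Fin 4) :
    conj (ee N k l ι j) = Complex.exp (-(Complex.I * ((mom N k ι j / l : ℝ) : ℂ))) := by
  unfold ee
  rw [← Complex.exp_conj, map_mul, Complex.conj_I, Complex.conj_ofReal, neg_mul]

lemma ee_mul (k : ℕ) (ι : Ix N) (j : Fin 4) : conj (ee N k l ι j) * ee N k l ι j = 1 := by
  rw [ee_conj]
  unfold ee
  rw [← Complex.exp_add, neg_add_cancel, Complex.exp_zero]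

lemma ee_add (k : ℕ) (ι : Ix N) (j : Fin 4) :
    ee N k l ι j + conj (ee N k l ι j) = ((2 * Real.cos (mom N k ι j / l) : ℝ) : ℂ) := by
  rw [ee_conj]
  unfold ee
  rw [Complex.ofReal_mul, Complex.ofReal_cos, Complex.cos]
  push_cast
  rw [show -(Complex.I * ((mom N k ι j : ℂ) / (l : ℂ))) = -((mom N k ι j : ℂ) / (l : ℂ)) * Complex.I by ring,
    show Complex.I * ((mom N k ι j : ℂ) / (l : ℂ)) = ((mom N k ι j : ℂ) / (l : ℂ)) * Complex.I by ring]
  ring

lemma mom0 (k : ℕ) (ι : Ix N) : mom N k ι 0 = 0 := rfl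

lemma mom1 (k : ℕ) (ι : Ix N) : mom N k ι 1 = 0 := rfl

lemma mom2 (k : ℕ) (ι : Ix N) :
    mom N k ι 2 = 2 * Real.pi * (ι.2.1 - k * ((ι.1.2 : ℕ) : ℝ) / N) := rfl

lemma mom3 (k : ℕ) (ι : Ix N) :
    mom N k ι 3 = 2 * Real.pi * (ι.2.2 + k * ((ι.1.1 : ℕ) : ℝ) / N) := rfl

lemma ee0 (k : ℕ) (ι : Ix N) : ee N k l ι 0 = 1 := by
  unfold ee
  rw [mom0]
  simp

lemma ee1 (k : ℕ) (ι : Ix N) : ee N k l ι 1 = 1 := by
  unfold ee
  rw [mom1]
  simp

lemma exp_mom2 (k : ℕ) (ι : Ix N) :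
    Complex.exp (Complex.I * (mom N k ι 2 : ℂ)) = conj (om N k) ^ (ι.1.2 : ℕ) := by
  unfold om
  rw [← Complex.exp_conj, ← Complex.exp_nat_mul, Complex.exp_eq_exp_iff_exists_int]
  refine ⟨ι.2.1, ?_⟩
  rw [mom2]
  simp only [map_mul, Complex.conj_ofReal, Complex.conj_I, map_div₀, Complex.conj_natCast, map_ofNat]
  push_cast
  ring

lemma exp_mom3 (k : ℕ) (ι : Ix N) :
    Complex.exp (Complex.I * (mom N k ι 3 : ℂ)) = om N k ^ (ι.1.1 : ℕ) := by
  unfold om
  rw [← Complex.exp_nat_mul, Complex.exp_eq_exp_iff_exists_int]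
  refine ⟨ι.2.2, ?_⟩
  rw [mom3]
  push_cast
  ring

lemma val_pred [NeZero l] {a : ZMod l} (ha : a ≠ 0) : (a.val : ℝ) = ((a - 1).val : ℝ) + 1 := by
  have hl1 : l ≠ 1 := by
    rintro rfl
    exact ha (Subsingleton.elim _ _)
  have hl0 : l ≠ 0 := NeZero.ne l
  have : Fact (1 < l) := ⟨by omega⟩
  have h1 : (1 : ZMod l).val ≤ a.val := by
    rw [ZMod.val_one]
    have : a.val ≠ 0 := fun h => ha ((ZMod.val_eq_zero a).1 h)
    omega
  have h2 := ZMod.val_sub h1
  rw [ZMod.val_one] at h2 h1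
  have h3 : a.val = (a - 1).val + 1 := by omega
  exact_mod_cast h3

lemma val_neg1 [NeZero l] : (((0 : ZMod l) - 1).val : ℝ) = l - 1 := by
  have hl0 : l ≠ 0 := NeZero.ne l
  obtain ⟨m, rfl⟩ : ∃ m, l = m + 1 := ⟨l - 1, by omega⟩
  rw [zero_sub, ZMod.val_neg_one]
  push_cast
  ring

lemma wave2 [NeZero l] (k : ℕ) (ι : Ix N) (y : ZMod l × ZMod l) :
    (if y.1 = 0 then conj (om N k) ^ (ι.1.2 : ℕ) else 1) * wave N k l ι (y.1 + 1, y.2) =
      ee N k l ι 2 * wave N k l ι y := by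
  have hl : (l : ℂ) ≠ 0 := by exact_mod_cast NeZero.ne l
  unfold wave ee
  simp only [add_sub_cancel_right]
  split_ifs with h
  · rw [← exp_mom2, ← Complex.exp_add, ← Complex.exp_add]
    congr 1
    rw [h, val_neg1, ZMod.val_zero]
    push_cast
    field_simp
    ring
  · rw [one_mul, ← Complex.exp_add]
    congr 1
    rw [val_pred h]
    push_cast
    ring

lemma wave3 [NeZero l] (k : ℕ) (ι : Ix N) (y : ZMod l × ZMod l) :
    (if y.2 = 0 then om N k ^ (ι.1.1 : ℕ) else 1) * wave N k l ι (y.1, y.2 + 1) =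
      ee N k l ι 3 * wave N k l ι y := by
  have hl : (l : ℂ) ≠ 0 := by exact_mod_cast NeZero.ne l
  unfold wave ee
  simp only [add_sub_cancel_right]
  split_ifs with h
  · rw [← exp_mom3, ← Complex.exp_add, ← Complex.exp_add]
    congr 1
    rw [h, val_neg1, ZMod.val_zero]
    push_cast
    field_simp
    ring
  · rw [one_mul, ← Complex.exp_add]
    congr 1
    rw [val_pred h]
    push_cast
    ring

/-- the base directions -/
def d2 : Fin 4 → ZMod n × ZMod L := ![(1, 0), (0, 1), 0, 0]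

lemma base_add (x : Site n L l) (j : Fin 4) :
    ((x + dir j).1, (x + dir j).2.1) = (x.1, x.2.1) + d2 j := by
  fin_cases j <;> simp [dir, d2]

lemma base_sub (x : Site n L l) (j : Fin 4) :
    ((x - dir j).1, (x - dir j).2.1) = (x.1, x.2.1) - d2 j := by
  fin_cases j <;> simp [dir, d2]

lemma fin4 (j : Fin 4) : j = 0 ∨ j = 1 ∨ j = 2 ∨ j = 3 := by
  revert j
  decide

lemma wave_step [NeZero l] (k : ℕ) (ι : Ix N) (x : Site n L l) (j : Fin 4) :
    rh k ι.1 x j * wave N k l ι (x + dir j).2.2 = ee N k l ι j * wave N k l ι x.2.2 := by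
  rcases fin4 j with rfl | rfl | rfl | rfl
  · have h1 : rh k ι.1 x 0 = 1 := by simp [rh]
    have h2 : (x + dir 0).2.2 = x.2.2 := by simp [dir]
    rw [h1, h2, ee0]
  · have h1 : rh k ι.1 x 1 = 1 := by simp [rh]
    have h2 : (x + dir 1).2.2 = x.2.2 := by simp [dir]
    rw [h1, h2, ee1]
  · have h1 : rh k ι.1 x 2 = if x.2.2.1 = 0 then conj (om N k) ^ (ι.1.2 : ℕ) else 1 := by simp [rh]
    have h2 : (x + dir 2).2.2 = (x.2.2.1 + 1, x.2.2.2) := by
      simp only [dir, Prod.snd_add]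
      exact Prod.ext (by simp) (by simp)
    rw [h1, h2]
    exact wave2 k ι x.2.2
  · have h1 : rh k ι.1 x 3 = if x.2.2.2 = 0 then om N k ^ (ι.1.1 : ℕ) else 1 := by simp [rh]
    have h2 : (x + dir 3).2.2 = (x.2.2.1, x.2.2.2 + 1) := by
      simp only [dir, Prod.snd_add]
      exact Prod.ext (by simp) (by simp)
    rw [h1, h2]
    exact wave3 k ι x.2.2

/-- the product of a base function and a wave -/
def pw (k : ℕ) (ι : Ix N) (g : ZMod n × ZMod L → ℂ) (x : Site n L l) : ℂ :=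
  g (x.1, x.2.1) * wave N k l ι x.2.2

lemma nb_pw [NeZero l] (k : ℕ) (ι : Ix N) (g : ZMod n × ZMod L → ℂ) (j : Fin 4) :
    (nb k ι.1 j (pw k ι g) : Site n L l → ℂ) =
      pw k ι fun u => ee N k l ι j * g (u + d2 j) - g u := by
  funext x
  unfold nb pw
  rw [base_add]
  have h := wave_step k ι x j
  linear_combination g ((x.1, x.2.1) + d2 j) * h

lemma nbs_pw [NeZero l] (k : ℕ) (ι : Ix N) (g : ZMod n × ZMod L → ℂ) (j : Fin 4) :
    (nbs k ι.1 j (pw k ι g) : Site n L l → ℂ) =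
      pw k ι fun u => conj (ee N k l ι j) * g (u - d2 j) - g u := by
  funext x
  unfold nbs pw
  rw [base_sub]
  have h := wave_step k ι (x - dir j) j
  rw [sub_add_cancel] at h
  have h2 : conj (rh k ι.1 (x - dir j) j) * rh k ι.1 (x - dir j) j = 1 := by
    rw [← Complex.normSq_eq_conj_mul_self, Complex.normSq_eq_norm_sq, Run7.h270.QC.rh_norm]
    norm_num
  have h3 := ee_mul (l := l) k ι j
  have h4 : conj (rh k ι.1 (x - dir j) j) * wave N k l ι (x - dir j).2.2 =
      conj (ee N k l ι j) * wave N k l ι x.2.2 := by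
    linear_combination (-conj (rh k ι.1 (x - dir j) j) * conj (ee N k l ι j)) * h +
      (conj (ee N k l ι j) * wave N k l ι x.2.2) * h2 -
      (conj (rh k ι.1 (x - dir j) j) * wave N k l ι (x - dir j).2.2) * h3
  linear_combination g ((x.1, x.2.1) - d2 j) * h4

lemma La_pw [NeZero l] (k : ℕ) (ι : Ix N) (g : ZMod n × ZMod L → ℂ) :
    La n L l k ι.1 (pw k ι g) = pw k ι (KC (xm N k l ι) g) := by
  funext x
  show ∑ j : Fin 4, nbs k ι.1 j (nb k ι.1 j (pw k ι g)) x = _
  simp only [nb_pw, nbs_pw, Fin.sum_univ_four]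
  unfold pw KC
  have a2 := ee_mul (l := l) k ι 2
  have a3 := ee_mul (l := l) k ι 3
  have b2 := ee_add (l := l) k ι 2
  have b3 := ee_add (l := l) k ι 3
  have c0 : (d2 0 : ZMod n × ZMod L) = (1, 0) := rfl
  have c1 : (d2 1 : ZMod n × ZMod L) = (0, 1) := rfl
  have c2 : (d2 2 : ZMod n × ZMod L) = 0 := rfl
  have c3 : (d2 3 : ZMod n × ZMod L) = 0 := rfl
  have hx : ((xm N k l ι : ℝ) : ℂ) = 4 - (ee N k l ι 2 + conj (ee N k l ι 2)) -
      (ee N k l ι 3 + conj (ee N k l ι 3)) := by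
    rw [b2, b3]
    unfold xm
    push_cast
    ring
  rw [hx]
  simp only [ee0, ee1, c0, c1, c2, c3, map_one, sub_add_cancel, sub_zero, add_zero]
  linear_combination (g (x.1, x.2.1) * wave N k l ι x.2.2) * (a2 + a3)

lemma nbs_sum (k : ℕ) (α : Col N) (j : Fin 4) {A : Type*} (s : Finset A)
    (F : A → Site n L l → ℂ) (x : Site n L l) :
    nbs k α j (fun x => ∑ i ∈ s, F i x) x = ∑ i ∈ s, nbs k α j (F i) x := by
  unfold nbs
  rw [mul_sum, ← sum_sub_distrib]

lemma sum_nbs [NeZero l] (k : ℕ) (J : Finset (Ix N))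
    (h : Ix N → Fin 4 → Fin 4 → ZMod n × ZMod L → ℂ) (α : Col N) (b : Fin 4) (x : Site n L l) :
    ∑ i : Fin 4, nbs k α i (md k J h α i b) x =
      ∑ ι ∈ J.filter fun ι => ι.1 = α, pw k ι (dh k l h ι b) x := by
  unfold Run7.h630.QF.md
  simp only [nbs_sum]
  rw [sum_comm]
  refine sum_congr rfl fun ι hι => ?_
  have hα : α = ι.1 := (mem_filter.1 hι).2.symm
  subst hα
  have e : ∀ i : Fin 4, nbs k ι.1 i (fun x : Site n L l => h ι i b (x.1, x.2.1) * wave N k l ι x.2.2) x =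
      pw k ι (fun u => conj (ee N k l ι i) * h ι i b (u - d2 i) - h ι i b u) x := fun i =>
    congrFun (nbs_pw k ι (h ι i b) i) x
  simp only [e, Fin.sum_univ_four]
  unfold pw dh
  have c0 : (d2 0 : ZMod n × ZMod L) = (1, 0) := rfl
  have c1 : (d2 1 : ZMod n × ZMod L) = (0, 1) := rfl
  have c2 : (d2 2 : ZMod n × ZMod L) = 0 := rfl
  have c3 : (d2 3 : ZMod n × ZMod L) = 0 := rfl
  rw [← ee_conj, ← ee_conj]
  simp only [ee0, ee1, c0, c1, c2, c3, map_one, sub_zero]
  ring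

lemma mom_ne [NeZero N] {k : ℕ} (hk : Nat.Coprime k N) {ι : Ix N} (hι : ι.1 ≠ (0, 0)) :
    mom N k ι 2 ≠ 0 ∨ mom N k ι 3 ≠ 0 := by
  have hN : (N : ℝ) ≠ 0 := by exact_mod_cast NeZero.ne N
  have hpi := Real.pi_ne_zero
  have key : ∀ (c : Fin N) (z : ℤ), (z : ℝ) * N = k * ((c : ℕ) : ℝ) → c = 0 := by
    intro c z h
    have h1 : z * (N : ℤ) = k * ((c : ℕ) : ℤ) := by exact_mod_cast h
    have h2 : (N : ℤ) ∣ (k : ℤ) * ((c : ℕ) : ℤ) := ⟨z, by rw [← h1]; ring⟩
    have h3 : N ∣ k * (c : ℕ) := by exact_mod_cast h2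
    have h4 : N ∣ (c : ℕ) := (Nat.Coprime.symm hk).dvd_of_dvd_mul_left h3
    have h5 := Nat.eq_zero_of_dvd_of_lt h4 c.2
    exact Fin.ext (by rw [h5]; simp)
  by_contra hcon
  push Not at hcon
  obtain ⟨h2, h3⟩ := hcon
  rw [mom2] at h2
  rw [mom3] at h3
  apply hι
  refine Prod.ext ?_ ?_
  · refine key ι.1.1 (-ι.2.2) ?_
    have h4 : (ι.2.2 : ℝ) + k * ((ι.1.1 : ℕ) : ℝ) / N = 0 := by
      rcases mul_eq_zero.1 h3 with h | h
      · exact absurd h (by positivity)
      · exact h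
    field_simp at h4
    push_cast
    linarith
  · refine key ι.1.2 ι.2.1 ?_
    have h4 : (ι.2.1 : ℝ) - k * ((ι.1.2 : ℕ) : ℝ) / N = 0 := by
      rcases mul_eq_zero.1 h2 with h | h
      · exact absurd h (by positivity)
      · exact h
    field_simp at h4
    linarith

lemma cos_lt {θ : ℝ} (h0 : θ ≠ 0) (h1 : |θ| < Real.pi) : Real.cos θ < 1 := by
  rw [← Real.cos_abs, ← Real.cos_zero]
  exact Real.cos_lt_cos_of_nonneg_of_le_pi le_rfl h1.le (abs_pos.2 h0)

lemma xm_pos [NeZero N] [NeZero l] {k : ℕ} (hk : Nat.Coprime k N) {ι : Ix N} (hι : ι.1 ≠ (0, 0))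
    (h2 : |mom N k ι 2| < Real.pi * l) (h3 : |mom N k ι 3| < Real.pi * l) : 0 < xm N k l ι := by
  have hl : (0 : ℝ) < l := by exact_mod_cast NeZero.pos l
  have a2 : |mom N k ι 2 / l| < Real.pi := by
    rw [abs_div, abs_of_pos hl, div_lt_iff₀ hl]; exact h2
  have a3 : |mom N k ι 3 / l| < Real.pi := by
    rw [abs_div, abs_of_pos hl, div_lt_iff₀ hl]; exact h3
  have c2 := Real.cos_le_one (mom N k ι 2 / l)
  have c3 := Real.cos_le_one (mom N k ι 3 / l)
  unfold xm
  rcases mom_ne hk hι with h | h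
  · have := cos_lt (div_ne_zero h hl.ne') a2
    linarith
  · have := cos_lt (div_ne_zero h hl.ne') a3
    linarith

lemma KC_surj {a b : ℕ} [NeZero a] [NeZero b] {x0 : ℝ} (hx : 0 < x0)
    (f : ZMod a × ZMod b → ℂ) : ∃ g, KC x0 g = f := by
  obtain ⟨g1, h1⟩ := Pool.Agent.Run7.h630.R2.Kb_surj hx (fun u => (f u).re)
  obtain ⟨g2, h2⟩ := Pool.Agent.Run7.h630.R2.Kb_surj hx (fun u => (f u).im)
  refine ⟨fun u => ⟨g1 u, g2 u⟩, funext fun u => Complex.ext ?_ ?_⟩
  · rw [KC_re]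
    exact congrFun h1 u
  · rw [KC_im]
    exact congrFun h2 u

/-- the sum over the fibre -/
lemma sum_pow [NeZero l] {x : ℂ} (hx : x ^ l = 1) :
    ∑ q : ZMod l, x ^ ((q - 1).val : ℕ) = if x = 1 then (l : ℂ) else 0 := by
  have h1 : ∑ q : ZMod l, x ^ ((q - 1).val : ℕ) = ∑ q : ZMod l, x ^ (q.val : ℕ) :=
    Equiv.sum_comp (Equiv.subRight (1 : ZMod l)) (fun q => x ^ (q.val : ℕ))
  have h2 : ∑ q : ZMod l, x ^ (q.val : ℕ) = ∑ i ∈ Finset.range l, x ^ i :=
    Finset.sum_bij (fun (x : ZMod l) _ => x.val)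
      (fun x _ => Finset.mem_range.2 (ZMod.val_lt x))
      (fun x _ y _ h => ZMod.val_injective l h)
      (fun i hi => ⟨(i : ZMod l), Finset.mem_univ _,
        ZMod.val_natCast_of_lt (Finset.mem_range.1 hi)⟩)
      (fun x _ => rfl)
  rw [h1, h2]
  split_ifs with h
  · simp [h]
  · rw [geom_sum_eq h, hx, sub_self, zero_div]

/-- the sum of the powers of a root of unity with a small exponent -/
lemma sum_root [NeZero l] (z : ℤ) (hz : |(z : ℝ)| < l) :
    ∑ q : ZMod l, Complex.exp (2 * Real.pi * Complex.I * z / l) ^ ((q - 1).val : ℕ) =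
      if z = 0 then (l : ℂ) else 0 := by
  have hl : (l : ℂ) ≠ 0 := by exact_mod_cast NeZero.ne l
  have h1 : Complex.exp (2 * Real.pi * Complex.I * z / l) ^ l = 1 := by
    rw [← Complex.exp_nat_mul, Complex.exp_eq_one_iff]
    exact ⟨z, by field_simp⟩
  rw [sum_pow h1]
  by_cases h : z = 0
  · rw [if_pos h, if_pos]
    rw [h]
    simp
  · rw [if_neg h, if_neg]
    intro h2
    obtain ⟨m, hm⟩ := Complex.exp_eq_one_iff.1 h2
    have h3 : (z : ℂ) = m * l := by
      have hpi : (2 * Real.pi * Complex.I : ℂ) ≠ 0 := by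
        simp [Real.pi_ne_zero]
      have h4 : (2 * Real.pi * Complex.I : ℂ) * (z / l) = (2 * Real.pi * Complex.I) * m := by
        rw [← mul_div_assoc, hm]; ring
      have h5 := mul_left_cancel₀ hpi h4
      rw [div_eq_iff hl] at h5
      exact h5
    have h6 : z = m * l := by exact_mod_cast h3
    have h7 : m ≠ 0 := by
      rintro rfl
      exact h (by rw [h6, zero_mul])
    have h8 : (1 : ℝ) ≤ |(m : ℝ)| := by
      have : (1 : ℤ) ≤ |m| := Int.one_le_abs h7
      exact_mod_cast this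
    rw [h6] at hz
    push_cast at hz
    rw [abs_mul, Nat.abs_cast] at hz
    have hl' : (0 : ℝ) < l := by exact_mod_cast NeZero.pos l
    nlinarith

lemma wave_mul (k : ℕ) {ι ι' : Ix N} (h : ι.1 = ι'.1) (y : ZMod l × ZMod l) :
    wave N k l ι y * conj (wave N k l ι' y) =
      Complex.exp (2 * Real.pi * Complex.I * ((ι.2.1 - ι'.2.1 : ℤ) : ℂ) / l) ^ ((y.1 - 1).val : ℕ) *
      Complex.exp (2 * Real.pi * Complex.I * ((ι.2.2 - ι'.2.2 : ℤ) : ℂ) / l) ^ ((y.2 - 1).val : ℕ) := by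
  unfold wave
  rw [← Complex.exp_conj, ← Complex.exp_nat_mul, ← Complex.exp_nat_mul, ← Complex.exp_add,
    ← Complex.exp_add]
  congr 1
  rw [map_mul, Complex.conj_I, Complex.conj_ofReal, mom2, mom3, mom2, mom3, h]
  push_cast
  ring

lemma small_diff {a b c : ℝ} {x y : ℤ} (_ : (0 : ℝ) < l) (ha : a = 2 * Real.pi * (x + c))
    (hb : b = 2 * Real.pi * (y + c)) (h1 : |a| < Real.pi * l) (h2 : |b| < Real.pi * l) :
    |((x - y : ℤ) : ℝ)| < l := by
  have hpi := Real.pi_pos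
  have h3 : |a - b| < 2 * Real.pi * l := by
    refine lt_of_le_of_lt (abs_sub _ _) ?_
    linarith
  have h4 : a - b = 2 * Real.pi * ((x - y : ℤ) : ℝ) := by
    rw [ha, hb]; push_cast; ring
  rw [h4, abs_mul, abs_of_pos (by positivity : (0 : ℝ) < 2 * Real.pi)] at h3
  exact lt_of_mul_lt_mul_left h3 (by positivity)

/-- the waves are orthogonal -/
lemma orth [NeZero l] (k : ℕ) {ι ι' : Ix N} (h : ι.1 = ι'.1)
    (h2 : |mom N k ι 2| < Real.pi * l) (h3 : |mom N k ι 3| < Real.pi * l)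
    (h2' : |mom N k ι' 2| < Real.pi * l) (h3' : |mom N k ι' 3| < Real.pi * l) :
    ∑ y : ZMod l × ZMod l, wave N k l ι y * conj (wave N k l ι' y) =
      if ι = ι' then (l : ℂ) ^ 2 else 0 := by
  have hl : (0 : ℝ) < l := by exact_mod_cast NeZero.pos l
  have s2 : |((ι.2.1 - ι'.2.1 : ℤ) : ℝ)| < l := by
    refine small_diff (c := -(k * ((ι.1.2 : ℕ) : ℝ) / N)) hl ?_ ?_ h2 h2'
    · rw [mom2]; ring
    · rw [mom2, h]; ring
  have s3 : |((ι.2.2 - ι'.2.2 : ℤ) : ℝ)| < l := by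
    refine small_diff (c := k * ((ι.1.1 : ℕ) : ℝ) / N) hl ?_ ?_ h3 h3'
    · rw [mom3]
    · rw [mom3, h]
  simp only [wave_mul k h]
  rw [Fintype.sum_prod_type]
  simp only
  rw [← Finset.sum_mul_sum, sum_root _ s2, sum_root _ s3]
  by_cases e : ι = ι'
  · rw [if_pos e, e, sub_self, sub_self, if_pos rfl]
    ring
  · rw [if_neg e]
    have : ι.2.1 - ι'.2.1 ≠ 0 ∨ ι.2.2 - ι'.2.2 ≠ 0 := by
      by_contra hc
      push Not at hc
      apply e
      refine Prod.ext h (Prod.ext ?_ ?_)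
      · linarith [hc.1]
      · linarith [hc.2]
    rcases this with h4 | h4
    · rw [if_neg h4, zero_mul]
    · rw [if_neg h4, mul_zero]

/-- the sum over the sites of two products -/
lemma sum_pw [NeZero n] [NeZero L] [NeZero l] (k : ℕ) {ι ι' : Ix N} (h : ι.1 = ι'.1)
    (h2 : |mom N k ι 2| < Real.pi * l) (h3 : |mom N k ι 3| < Real.pi * l)
    (h2' : |mom N k ι' 2| < Real.pi * l) (h3' : |mom N k ι' 3| < Real.pi * l)
    (g g' : ZMod n × ZMod L → ℂ) :
    ∑ x : Site n L l, pw k ι g x * conj (pw k ι' g' x) =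
      if ι = ι' then (l : ℂ) ^ 2 * ∑ u, g u * conj (g' u) else 0 := by
  have e1 : ∑ x : Site n L l, pw k ι g x * conj (pw k ι' g' x) =
      (∑ u, g u * conj (g' u)) * ∑ y : ZMod l × ZMod l, wave N k l ι y * conj (wave N k l ι' y) := by
    rw [Finset.sum_mul_sum, Fintype.sum_prod_type, Fintype.sum_prod_type]
    refine sum_congr rfl fun a _ => ?_
    rw [Fintype.sum_prod_type]
    refine sum_congr rfl fun b _ => sum_congr rfl fun y _ => ?_
    unfold pw
    rw [map_mul]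
    ring
  rw [e1, orth k h h2 h3 h2' h3']
  split_ifs
  · ring
  · rw [mul_zero]

lemma antis (f : Fin 4 → Fin 4 → ℂ) (G : Fin 4 → Fin 4 → ℂ) (hf : ∀ i j, f j i = -f i j) :
    ∑ i : Fin 4, ∑ j ∈ Finset.Ioi i, f i j * conj (G i j - G j i) =
      ∑ j : Fin 4, ∑ i : Fin 4, f i j * conj (G i j) := by
  have e0 : (Finset.Ioi (0 : Fin 4)) = {1, 2, 3} := by decide
  have e1 : (Finset.Ioi (1 : Fin 4)) = {2, 3} := by decide
  have e2 : (Finset.Ioi (2 : Fin 4)) = {3} := by decide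
  have e3 : (Finset.Ioi (3 : Fin 4)) = ∅ := by decide
  have d : ∀ i, f i i = 0 := by
    intro i
    have := hf i i
    linear_combination this / 2
  simp only [Fin.sum_univ_four, e0, e1, e2, e3, Finset.sum_empty, Finset.sum_singleton]
  rw [Finset.sum_insert (by decide), Finset.sum_insert (by decide), Finset.sum_singleton,
    Finset.sum_insert (by decide), Finset.sum_singleton]
  rw [hf 0 1, hf 0 2, hf 0 3, hf 1 2, hf 1 3, hf 2 3, d, d, d, d]
  simp only [map_sub]
  ring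

/-- **R2** -/
theorem t_R2 : S_R2 := by
  classical
  intro N n L l k _ _ _ _ hk J hJ hS h hh
  have hex : ∀ ι : Ix N, ∀ b : Fin 4, ∃ g : ZMod n × ZMod L → ℂ,
      ι ∈ J → KC (xm N k l ι) g = dh k l h ι b := by
    intro ι b
    by_cases hι : ι ∈ J
    · obtain ⟨g, hg⟩ := KC_surj (xm_pos hk (hJ ι hι) (hS ι hι).1 (hS ι hι).2) (dh k l h ι b)
      exact ⟨g, fun _ => hg⟩
    · exact ⟨0, fun h => absurd h hι⟩
  choose w hw using hex
  obtain ⟨C, hC, h5⟩ := Run7.h270.QC.t_Q5a N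
  have hpo : ∀ α : Col N, α ≠ (0, 0) → ∀ b : Fin 4,
      po k (md k J h : Col N → Fin 4 → Fin 4 → Site n L l → ℂ) α b = mo k J w α b := by
    intro α hα b
    have h6 := (h5 n L l k hk α hα).2.1
    have e1 : (fun x : Site n L l => ∑ i : Fin 4, nbs k α i (md k J h α i b) x) =
        La n L l k α (mo k J w α b) := by
      have e2 : (mo k J w α b : Site n L l → ℂ) =
          ∑ ι ∈ J.filter fun ι => ι.1 = α, pw k ι (w ι b) := by
        funext x
        rw [Finset.sum_apply]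
        rfl
      rw [e2, map_sum]
      funext x
      rw [sum_nbs, Finset.sum_apply]
      refine sum_congr rfl fun ι hι => ?_
      have hα' : α = ι.1 := (mem_filter.1 hι).2.symm
      subst hα'
      rw [La_pw, hw ι b (mem_filter.1 hι).1]
    unfold po pot
    rw [e1, h6]
  refine ⟨w, fun ι hι b => hw ι b hι, fun α hα b x => by rw [hpo α hα b], ?_⟩
  have hα : ∀ α ∈ Cz N, ∑ x : Site n L l, ∑ i : Fin 4, ∑ j ∈ Finset.Ioi i,
      (md k J h α i j x * conj (nb k α i (po k (md k J h) α j) x -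
        nb k α j (po k (md k J h) α i) x)).re =
      ∑ ι ∈ J.filter fun ι => ι.1 = α, (l : ℝ) ^ 2 * ∑ b : Fin 4, ∑ u,
        (dh k l h ι b u * conj (w ι b u)).re := by
    intro α hα
    have hα0 : α ≠ (0, 0) := (Finset.mem_erase.1 hα).1
    have hf : ∀ (i j : Fin 4) (x : Site n L l), md k J h α j i x = -md k J h α i j x := by
      intro i j x
      unfold Run7.h630.QF.md
      rw [← Finset.sum_neg_distrib]
      exact sum_congr rfl fun ι _ => by rw [hh ι i j]; ring
    have e1 : ∑ x : Site n L l, ∑ i : Fin 4, ∑ j ∈ Finset.Ioi i,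
        (md k J h α i j x * conj (nb k α i (po k (md k J h) α j) x -
        nb k α j (po k (md k J h) α i) x)) =
        ∑ ι ∈ J.filter fun ι => ι.1 = α, (l : ℂ) ^ 2 * ∑ b : Fin 4, ∑ u,
        (dh k l h ι b u * conj (w ι b u)) := by
      have s1 : ∀ x : Site n L l, ∑ i : Fin 4, ∑ j ∈ Finset.Ioi i,
          (md k J h α i j x * conj (nb k α i (po k (md k J h) α j) x -
          nb k α j (po k (md k J h) α i) x)) =
          ∑ j : Fin 4, ∑ i : Fin 4, md k J h α i j x *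
            conj (nb k α i (po k (md k J h) α j) x) := fun x =>
        antis (fun i j => md k J h α i j x) (fun i j => nb k α i (po k (md k J h) α j) x)
          (fun i j => hf i j x)
      rw [sum_congr rfl fun x _ => s1 x, sum_comm]
      have s2 : ∀ j : Fin 4, ∑ x : Site n L l, ∑ i : Fin 4, md k J h α i j x *
            conj (nb k α i (po k (md k J h) α j) x) =
          ∑ ι ∈ J.filter fun ι => ι.1 = α, (l : ℂ) ^ 2 * ∑ u,
            (dh k l h ι j u * conj (w ι j u)) := by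
        intro j
        rw [sum_comm]
        have s3 : ∀ i : Fin 4, ∑ x : Site n L l, md k J h α i j x *
            conj (nb k α i (po k (md k J h) α j) x) =
            ∑ x : Site n L l, nbs k α i (md k J h α i j) x * conj (po k (md k J h) α j x) := by
          intro i
          have := Run7.h270.QC.adj (N := N) (n := n) (L := L) (l := l) k α i
            (po k (md k J h) α j) (md k J h α i j)
          rw [sum_congr rfl fun x _ => mul_comm (md k J h α i j x) _, ← this]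
          exact sum_congr rfl fun x _ => mul_comm _ _
        rw [sum_congr rfl fun i _ => s3 i, sum_comm]
        have s4 : ∀ x : Site n L l, ∑ i : Fin 4, nbs k α i (md k J h α i j) x *
            conj (po k (md k J h) α j x) =
            ∑ ι ∈ J.filter fun ι => ι.1 = α, ∑ ι' ∈ J.filter fun ι => ι.1 = α,
              pw k ι (dh k l h ι j) x * conj (pw k ι' (w ι' j) x) := by
          intro x
          rw [← Finset.sum_mul, sum_nbs, hpo α hα0 j, ← Finset.sum_mul_sum, ← map_sum]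
          rfl
        rw [sum_congr rfl fun x _ => s4 x, sum_comm]
        refine sum_congr rfl fun ι hι => ?_
        rw [sum_comm]
        have s5 : ∀ ι' ∈ J.filter fun ι => ι.1 = α,
            ∑ x : Site n L l, pw k ι (dh k l h ι j) x * conj (pw k ι' (w ι' j) x) =
            if ι = ι' then (l : ℂ) ^ 2 * ∑ u, dh k l h ι j u * conj (w ι' j u) else 0 := by
          intro ι' hι'
          have a1 := mem_filter.1 hι
          have a2 := mem_filter.1 hι'
          exact sum_pw k (a1.2.trans a2.2.symm) (hS ι a1.1).1 (hS ι a1.1).2 (hS ι' a2.1).1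
            (hS ι' a2.1).2 _ _
        rw [sum_congr rfl s5, Finset.sum_ite_eq, if_pos hι]
      rw [sum_congr rfl fun j _ => s2 j, sum_comm]
      exact sum_congr rfl fun ι _ => by rw [Finset.mul_sum]
    have e2 := congrArg Complex.re e1
    simp only [Complex.re_sum] at e2
    rw [e2]
    refine sum_congr rfl fun ι _ => ?_
    have e3 : ((l : ℂ) ^ 2) = (((l : ℝ) ^ 2 : ℝ) : ℂ) := by push_cast; rfl
    rw [e3, Complex.re_ofReal_mul]
    simp only [Complex.re_sum]
  unfold prg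
  rw [sum_congr rfl hα, Finset.mul_sum]
  exact Finset.sum_fiberwise_of_maps_to (fun ι hι => Finset.mem_erase.2 ⟨hJ ι hι, mem_univ _⟩) _

end

end Run7.h377.QF
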